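import Mathlib
import Pool.Agent.Helper398.Bridge

set_option autoImplicit false

namespace Pool.Agent.Results.MP_516cd6_nt.OlsonConstant

/-- The set of sums of the nonempty subsets of A (each element used at most once). -/
def SigmaStar {G : Type} [AddCommGroup G] (A : Finset G) : Set G :=
  {s | ∃ B : Finset G, B ⊆ A ∧ B.Nonempty ∧ ∑ b ∈ B, b = s}

/-- A is weakly zero-sum-free: no nonempty subset of A sums to zero. -/
def WeaklyZeroSumFree {G : Type} [AddCommGroup G] (A : Finset G) : Prop :=
  (0 : G) ∉ SigmaStar A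

/-- The set of all values taken by the number of nonempty subset sums of A, as A runs over the
weakly zero-sum-free m-element subsets of all finite abelian groups. -/
def values (m : ℕ) : Set ℕ :=
  {n | ∃ (G : Type) (_ : AddCommGroup G) (_ : Finite G) (A : Finset G),
    A.card = m ∧ WeaklyZeroSumFree A ∧ (SigmaStar A).ncard = n}

/-- f(m): the minimum of the number of nonempty subset sums. -/
noncomputable def f (m : ℕ) : ℕ := sInf (values m)

/-- sanity: the minimum is over a nonempty set of values, with f(m) at most m(m+1)/2 -/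
theorem values_nonempty (m : ℕ) : (values m).Nonempty := by
  obtain ⟨A, hA, hA2⟩ := Pool.Agent.Helper398.example_card m
  refine ⟨(SigmaStar A).ncard, ZMod (m * (m + 1) / 2 + 1), inferInstance, inferInstance, A, hA,
    ?_, rfl⟩
  rintro ⟨B, hB, hne, hs⟩
  exact hA2 B hB hne hs

/-- sanity: f(m) is attained, it is a minimum -/
theorem f_mem (m : ℕ) : f m ∈ values m := Nat.sInf_mem (values_nonempty m)

/-- For every real c < 1/2 (for instance c = 49/100 > 1/9) one has f(m) ≥ ⌈c m²⌉ for all but
finitely many m. -/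
theorem result (c : ℝ) (hc : c < 1 / 2) :
    ∀ᶠ m : ℕ in Filter.atTop, ⌈c * (m : ℝ) ^ 2⌉ ≤ (f m : ℤ) := by
  classical
  obtain ⟨M, hM⟩ := Pool.Agent.Helper398.lower c hc
  rw [Filter.eventually_atTop]
  refine ⟨M, fun m hm => ?_⟩
  obtain ⟨G, _, _, A, hA, hZ, hn⟩ := f_mem m
  have hT : ∀ s, s ∈ SigmaStar A ↔ ∃ B : Finset G, B ⊆ A ∧ B.Nonempty ∧ ∑ b ∈ B, b = s :=
    fun s => Iff.rfl
  have h1 := Pool.Agent.Helper398.ncard_bridge A (SigmaStar A) hT hZ
  have h2 := hM G A (by omega) (Pool.Agent.Helper398.ZSF_of_notMem A (SigmaStar A) hT hZ)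
  rw [hn] at h1
  rw [hA, ← h1] at h2
  push_cast at h2
  rw [Int.ceil_le]
  push_cast
  linarith

end Pool.Agent.Results.MP_516cd6_nt.OlsonConstant
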